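import Pool.Agent.Results.MP_99d208_al.Disproof

set_option autoImplicit false

/-!
Counterexamples consisting of `π`-groups, for every large enough set `π` of primes.
-/

namespace Pool.Agent.Results.MP_99d208_al.AllPrimeSets

open Subgroup Pool.Agent.Helper851.R
open Pool.Agent.Results.MP_99d208_al.Disproof

/-- `G` is a `π`-group: all prime divisors of its order lie in `π`. -/
def IsPiGroup (π : Set ℕ) (G : Type) [Group G] : Prop :=
  ∀ q : ℕ, q.Prime → q ∣ Nat.card G → q ∈ π

theorem IsPiGroup.of_dvd {π : Set ℕ} {G H : Type} [Group G] [Group H] (h : IsPiGroup π G)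
    (hd : Nat.card H ∣ Nat.card G) : IsPiGroup π H :=
  fun q hq hqd => h q hq (hqd.trans hd)

/-- the `π`-groups of the class -/
def cut (π : Set ℕ) (F : GroupClass) : GroupClass := fun G _ => F G ∧ IsPiGroup π G

theorem isFormation_cut (π : Set ℕ) {F : GroupClass} (hF : IsFormation F)
    (h1 : F Unit) : IsFormation (cut π F) where
  finite := fun G _ h => hF.finite G h.1
  nonempty := by
    refine ⟨Unit, inferInstance, h1, ?_⟩
    intro q hq hd
    rw [Nat.card_unique, Nat.dvd_one] at hd
    exact absurd hd hq.ne_one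
  iso := by
    intro G H _ _ e h
    refine ⟨hF.iso G H e h.1, h.2.of_dvd ?_⟩
    rw [Nat.card_congr e.some.toEquiv]
  quotient := by
    intro G _ N _ h
    exact ⟨hF.quotient G N h.1, h.2.of_dvd (Subgroup.card_quotient_dvd_card N)⟩
  subdirect := by
    intro G _ _ M N _ _ hM hN
    refine ⟨hF.subdirect G M N hM.1 hN.1, ?_⟩
    intro q hq hd
    have e1 : (M ⊓ N).relIndex M * M.index = (M ⊓ N).index := relIndex_mul_index inf_le_left
    have e2 : (M ⊓ N).relIndex M ∣ N.index := by
      rw [inf_relIndex_left]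
      exact relIndex_dvd_index_of_normal N M
    have hd' : q ∣ (M ⊓ N).index := hd
    rw [← e1] at hd'
    rcases (hq.dvd_mul).1 hd' with h | h
    · exact hN.2 q hq (h.trans e2)
    · exact hM.2 q hq h

/-- Every prime divisor of the order divides the order of a chief factor. -/
theorem exists_chief {G : Type} [Group G] [Finite G] {q : ℕ} (hq : q.Prime)
    (hd : q ∣ Nat.card G) : ∃ (H K : Subgroup G) (_ : H.Normal) (_ : K.Normal),
      IsChiefFactor H K ∧ q ∣ Nat.card (↥H ⧸ K.subgroupOf H) := by
  have hfin : {H : Subgroup G | H.Normal ∧ q ∣ Nat.card H}.Finite := Set.toFinite _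
  obtain ⟨H, -, hH⟩ := hfin.exists_le_minimal (a := (⊤ : Subgroup G))
    ⟨inferInstance, by rw [Subgroup.card_top]; exact hd⟩
  have hbot : (⊥ : Subgroup G) < H := by
    rw [bot_lt_iff_ne_bot]
    rintro rfl
    have h1 := hH.prop.2
    rw [Subgroup.card_bot, Nat.dvd_one] at h1
    exact hq.ne_one h1
  have hfin2 : {K : Subgroup G | K.Normal ∧ K < H}.Finite := Set.toFinite _
  obtain ⟨K, -, hK⟩ := hfin2.exists_le_maximal (a := (⊥ : Subgroup G)) ⟨inferInstance, hbot⟩
  refine ⟨H, K, hH.prop.1, hK.prop.1, ⟨hH.prop.1, hK.prop.1, hK.prop.2, ?_⟩, ?_⟩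
  · intro L hL hKL hLH
    by_cases h : L = H
    · exact Or.inr h
    · left
      have h1 : L < H := lt_of_le_of_ne hLH h
      exact le_antisymm (hK.le_of_ge ⟨hL, h1⟩ hKL) hKL
  · have h1 : ¬ q ∣ Nat.card K := by
      intro h
      have h2 := hH.le_of_le ⟨hK.prop.1, h⟩ hK.prop.2.le
      exact absurd hK.prop.2 (not_lt_of_ge h2)
    have h2 := Subgroup.card_eq_card_quotient_mul_card_subgroup (K.subgroupOf H)
    have h3 : Nat.card (K.subgroupOf H) = Nat.card K :=
      Nat.card_congr (Subgroup.subgroupOfEquivOfLe hK.prop.2.le).toEquiv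
    have h4 : q ∣ Nat.card (↥H ⧸ K.subgroupOf H) * Nat.card (K.subgroupOf H) := by
      rw [← h2]
      exact hH.prop.2
    rcases hq.dvd_mul.1 h4 with h5 | h5
    · exact h5
    · rw [h3] at h5
      exact absurd h5 h1

/-- the classes -/
def FF (π : Set ℕ) : GroupClass := cut π fun G _ => ClsOf DF G

theorem isLocal_FF (π : Set ℕ) : IsLocal (FF π) := by
  refine ⟨fun p G _ => p ∈ π ∧ fval p G ∧ IsPiGroup π G, ?_, ?_⟩
  · intro p _
    by_cases hp : p ∈ π
    · left
      by_cases h2 : p = 2
      · have : (fun (G : Type) [Group G] => p ∈ π ∧ fval p G ∧ IsPiGroup π G) =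
            cut π (fun (G : Type) [Group G] => ClsOf DX G) := by
          funext G _
          have e : fval p G = ClsOf DX G := if_pos h2
          simp only [cut, hp, true_and, e]
        change IsFormation (fun (G : Type) [Group G] => p ∈ π ∧ fval p G ∧ IsPiGroup π G)
        rw [this]
        exact isFormation_cut π (isFormation_clsOf good_DX) ClsOf.bot
      · have : (fun (G : Type) [Group G] => p ∈ π ∧ fval p G ∧ IsPiGroup π G) =
            cut π (fun (G : Type) [Group G] => ClsOf DN G) := by
          funext G _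
          have e : fval p G = ClsOf DN G := if_neg h2
          simp only [cut, hp, true_and, e]
        change IsFormation (fun (G : Type) [Group G] => p ∈ π ∧ fval p G ∧ IsPiGroup π G)
        rw [this]
        exact isFormation_cut π (isFormation_clsOf good_DN) ClsOf.bot
    · right
      intro G _ h
      exact hp h.1
  · intro G _ _
    constructor
    · intro h H K _ _ hch p hp hpd
      have hpG : p ∣ Nat.card G :=
        (hpd.trans (Subgroup.card_quotient_dvd_card _)).trans (Subgroup.card_subgroup_dvd_card H)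
      exact ⟨h.2 p hp hpG, local_forward h.1 H K hch.lt hch.minimal p hp hpd,
        h.2.of_dvd (Subgroup.card_quotient_dvd_card _)⟩
    · intro h
      constructor
      · apply local_backward
        intro H K hH hK hlt hch p hp hpd
        exact (h H K ⟨hH, hK, hlt, hch⟩ p hp hpd).2.1
      · intro q hq hd
        obtain ⟨H, K, hH, hK, hch, hqd⟩ := exists_chief hq hd
        exact (h H K hch q hq hqd).1

theorem npow_trivial (k : ℕ) (G : Type) [Group G] [Subsingleton G] : NPow k G := by
  refine ⟨inferInstance, fun _ => ⊥, fun _ => inferInstance, rfl, Subsingleton.elim _ _,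
    fun i _ => ⟨le_refl _, ?_⟩⟩
  infer_instance

theorem min_old (G : Type) [Group G] [Finite G] (hsol : Group.IsSolvable G)
    (hmin : IsMinimalNon (fun G _ => ClsOf DF G) G) :
    IsMinimalNon (NPow (nilpotentLength G - 1)) G := by
  obtain ⟨hnF, hprop⟩ := hmin
  have h3 : ¬ Chain 3 G := by
    intro h
    apply hnF
    refine ⟨inferInstance, inferInstance, ?_⟩
    rintro _ ⟨P, Q, R, y, hc, rfl⟩
    exact chain3_test h P Q R y hc
  have hl : NPow (nilpotentLength G) G := npow_nilpotentLength G
  have h4 : 4 ≤ nilpotentLength G := by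
    by_contra hlt
    apply h3
    rw [npow_iff] at hl
    exact hl.mono (by omega)
  constructor
  · intro h
    have h5 : nilpotentLength G ≤ nilpotentLength G - 1 := Nat.sInf_le h
    omega
  · intro H hH
    rw [npow_iff]
    exact (min_main hnF hprop H hH).mono (by omega)

theorem min_new (π : Set ℕ) (G : Type) [Group G] [Finite G] (hsol : Group.IsSolvable G)
    (hmin : IsMinimalNon (FF π) G) : IsMinimalNon (NPow (nilpotentLength G - 1)) G := by
  by_cases hpi : IsPiGroup π G
  · exact min_old G hsol ⟨fun h => hmin.1 ⟨h, hpi⟩, fun H hH => (hmin.2 H hH).1⟩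
  · unfold IsPiGroup at hpi
    push Not at hpi
    obtain ⟨q, hq, hd, hqπ⟩ := hpi
    haveI : Fact q.Prime := ⟨hq⟩
    obtain ⟨x, hx⟩ := exists_prime_orderOf_dvd_card' q hd
    have htop : zpowers x = ⊤ := by
      by_contra hne
      have h1 := (hmin.2 _ hne).2 q hq (by rw [Nat.card_zpowers, hx])
      exact hqπ h1
    have hc : Nat.card G = q := by
      rw [← hx, ← Nat.card_zpowers, htop, Subgroup.card_top]
    have hl : NPow (nilpotentLength G) G := npow_nilpotentLength G
    have h0 : nilpotentLength G ≠ 0 := by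
      intro h
      rw [h] at hl
      obtain ⟨-, s, _, hs0, hs1, _⟩ := hl
      have h1 : (⊥ : Subgroup G) = ⊤ := hs0.symm.trans hs1
      have h2 : Nat.card (⊥ : Subgroup G) = Nat.card (⊤ : Subgroup G) := by rw [h1]
      rw [Subgroup.card_bot, Subgroup.card_top, hc] at h2
      exact hq.ne_one h2.symm
    constructor
    · intro h
      have h5 : nilpotentLength G ≤ nilpotentLength G - 1 := Nat.sInf_le h
      omega
    · intro H hH
      have h1 : Nat.card H ∣ q := by
        rw [← hc]
        exact Subgroup.card_subgroup_dvd_card H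
      rcases (Nat.dvd_prime hq).1 h1 with h2 | h2
      · haveI : Subsingleton H := (Nat.card_eq_one_iff_unique.1 h2).1
        exact npow_trivial _ _
      · exact absurd (Subgroup.eq_top_of_card_eq H (h2.trans hc.symm)) hH

theorem mem_FF_of_three (π : Set ℕ) (G : Type) [Group G] [Finite G] (hsol : Group.IsSolvable G)
    (h : NPow 3 G) (hpi : IsPiGroup π G) : FF π G := by
  refine ⟨⟨inferInstance, hsol, ?_⟩, hpi⟩
  rintro _ ⟨P, Q, R, y, hc, rfl⟩
  exact chain3_test ((npow_iff 3 G).1 h) P Q R y hc

theorem npow_of_nilpotent (G : Type) [Group G] [Finite G] (h : Group.IsNilpotent G) :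
    NPow 3 G := by
  rw [npow_iff]
  obtain ⟨n, hn⟩ := Subgroup.nilpotent_iff_lowerCentralSeries.1 h
  have h1 : Chain 1 G := by
    refine ⟨fun i => if i = 0 then ⊥ else ⊤, rfl, rfl, fun i => ?_, ?_⟩
    · show (if i = 0 then (⊥ : Subgroup G) else ⊤).Normal
      split_ifs <;> infer_instance
    · intro i hi
      obtain rfl : i = 0 := by omega
      refine ⟨bot_le, n, ?_⟩
      show (⊤ : Subgroup G).lowerCentralSeries n ≤ ⊥
      exact hn.le
  exact h1.mono (by norm_num)

/-- There is a number `M` such that for every set `π` of primes containing all primes up to `M` there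
is a soluble local hereditary formation of `π`-groups that is not a Fitting class although every
soluble minimal non-`F`-group `G` is a minimal non-`N^(l(G)-1)`-group, and that contains all soluble
`π`-groups of nilpotent length at most 3; different sets of primes give different classes. -/
theorem result : ∃ (M : ℕ) (Φ : Set ℕ → GroupClass),
    (∀ π : Set ℕ, (∀ q : ℕ, q.Prime → q ≤ M → q ∈ π) →
      IsFormation (Φ π) ∧ IsSolubleClass (Φ π) ∧ IsHereditary (Φ π) ∧ IsLocal (Φ π) ∧
      (∀ (G : Type) [Group G] [Finite G], Group.IsSolvable G → IsMinimalNon (Φ π) G →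
        IsMinimalNon (NPow (nilpotentLength G - 1)) G) ∧
      ¬ IsRadical (Φ π) ∧
      (∀ (G : Type) [Group G], Φ π G → IsPiGroup π G) ∧
      (∀ (G : Type) [Group G] [Finite G], Group.IsSolvable G → NPow 3 G → IsPiGroup π G →
        Φ π G)) ∧
    ∀ π ρ : Set ℕ, Φ π = Φ ρ → ∀ q : ℕ, q.Prime → (q ∈ π ↔ q ∈ ρ) := by
  obtain ⟨G₀, _, _, A, B, _, _, hA, hB, hAB⟩ := not_product
  refine ⟨Nat.card G₀, FF, fun π hπ => ⟨isFormation_cut π (isFormation_clsOf good_DF) ClsOf.bot,
    fun G _ h => h.1.2.1, ?_, isLocal_FF π, fun G _ _ hs hm => min_new π G hs hm, ?_,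
    fun G _ h => h.2, fun G _ _ hs h hp => mem_FF_of_three π G hs h hp⟩, ?_⟩
  · intro G _ H h
    refine ⟨ClsOf.inj good_DF H.subtype H.subtype_injective h.1, ?_⟩
    haveI := h.1.1
    exact h.2.of_dvd (Subgroup.card_subgroup_dvd_card H)
  · rintro ⟨-, h⟩
    have hpi : ∀ H : Subgroup G₀, IsPiGroup π H := by
      intro H q hq hd
      exact hπ q hq (Nat.le_of_dvd Nat.card_pos (hd.trans (Subgroup.card_subgroup_dvd_card H)))
    exact hAB (h G₀ A B ⟨hA, hpi A⟩ ⟨hB, hpi B⟩).1
  · intro π ρ h q hq
    haveI : Fact q.Prime := ⟨hq⟩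
    have key : ∀ σ : Set ℕ, FF σ (Multiplicative (ZMod q)) ↔ q ∈ σ := by
      intro σ
      have hc : Nat.card (Multiplicative (ZMod q)) = q := by
        rw [Nat.card_congr Multiplicative.toAdd, Nat.card_zmod]
      constructor
      · intro h
        exact h.2 q hq (by rw [hc])
      · intro hqσ
        haveI : Finite (Multiplicative (ZMod q)) := Finite.of_equiv (ZMod q) Multiplicative.ofAdd
        refine mem_FF_of_three σ _ inferInstance (npow_of_nilpotent _ inferInstance) ?_
        intro r hr hd
        rw [hc, Nat.prime_dvd_prime_iff_eq hr hq] at hd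
        rw [hd]
        exact hqσ
    rw [← key π, ← key ρ, h]

end Pool.Agent.Results.MP_99d208_al.AllPrimeSets
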